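import Pool.Agent.Q24.AE.Grow

set_option autoImplicit false

/-!
# Complexity and curvature are not invariant under Gorenstein linkage

There are an Artinian Gorenstein local ring `S` and proper ideals `I`, `J` of `S` with `I = (0 : J)`
and `J = (0 : I)` (so `I` and `J` are linked by the zero ideal, which is a Gorenstein perfect ideal,
and `S / I`, `S / J` are Cohen-Macaulay) such that the Betti numbers of `I` grow at most
quadratically and those of `J` grow exponentially: `cx I ≤ 3`, `cx J = ∞`, `curv I ≤ 1` and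
`curv J ≥ 2`.

Construction: `R` is the Gorenstein `ℚ`-algebra of dimension `14` with the Hilbert function
`1, 6, 6, 1` whose dual form is the cubic with the values `1` on `x1 x3 x3`, `x1 x4 x4`, `x1 x2 y`,
`x1 z z`, `x2 z z`, `x3 z z`, `x4 z z`, `-2` on `x2 x3 x3` and `-1` on `x2 x4 x4`. The matrices
`d t = (x1, t x3; x4, x2)` satisfy `ker (d t) = im (d (2 t))` for `t = 2, 4, 8, …`, so that
`W = im (d 2)` has the Betti numbers `2, 2, 2, …`, but the dual `L` of `W` has Betti numbers with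
`β (n + 1) ≥ 2 β n`. Now `S = R[u, v] / (u ^ 2, v ^ 2)` and `I` is the ideal of the
`b u + c v + d u v` with `(b, c) ∈ W`. As `R`-modules `I = W ⊕ R` and `J = L ⊕ R`. A free resolution
with the ranks `g n` over a ring gives one with the ranks `g 0 + … + g n` over its dual numbers, and
minimal resolutions have the smallest ranks.
-/

namespace Pool.Agent.Results.MP_ae0d71_al.NotLinkageInvariant

open Pool.Agent.Q24.AE Filter
open scoped ENNReal NNReal Topology

/-- The complexity of a module with the Betti numbers `b`: the infimum of the `d ≥ 0` such that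
`b n ≤ c n ^ (d - 1)` for some `c > 0` and all `n ≥ 1`. -/
noncomputable def cx (b : ℕ → ℕ) : ℝ≥0∞ :=
  ⨅ (d : ℝ≥0) (_ : ∃ c : ℝ, 0 < c ∧ ∀ n : ℕ, 1 ≤ n → (b n : ℝ) ≤ c * (n : ℝ) ^ ((d : ℝ) - 1)),
    (d : ℝ≥0∞)

/-- The curvature of a module with the Betti numbers `b`. -/
noncomputable def curv (b : ℕ → ℕ) : ℝ≥0∞ :=
  limsup (fun n : ℕ => (b n : ℝ≥0∞) ^ ((n : ℝ)⁻¹)) atTop

theorem curv_le {b : ℕ → ℕ} {r : ℝ} (hr : 0 ≤ r) (h : ∀ᶠ n : ℕ in atTop, (b n : ℝ) ≤ r ^ n) :
    curv b ≤ ENNReal.ofReal r := by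
  apply limsup_le_of_le
  · exact isCobounded_le_of_bot
  · filter_upwards [h, eventually_ge_atTop 1] with n hn h1
    have e : (b n : ℝ≥0∞) ≤ (ENNReal.ofReal r) ^ n := by
      rw [← ENNReal.ofReal_pow hr, ← ENNReal.ofReal_natCast]
      exact ENNReal.ofReal_le_ofReal hn
    calc (b n : ℝ≥0∞) ^ ((n : ℝ)⁻¹) ≤ ((ENNReal.ofReal r) ^ n) ^ ((n : ℝ)⁻¹) :=
          ENNReal.rpow_le_rpow e (by positivity)
      _ = ENNReal.ofReal r := ENNReal.pow_rpow_inv_natCast (by omega) _

theorem le_curv {b : ℕ → ℕ} {r : ℝ} (hr : 0 ≤ r) (h : ∀ᶠ n : ℕ in atTop, r ^ n ≤ (b n : ℝ)) :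
    ENNReal.ofReal r ≤ curv b := by
  apply le_limsup_of_frequently_le
  · apply Eventually.frequently
    filter_upwards [h, eventually_ge_atTop 1] with n hn h1
    have e : (ENNReal.ofReal r) ^ n ≤ (b n : ℝ≥0∞) := by
      rw [← ENNReal.ofReal_pow hr, ← ENNReal.ofReal_natCast]
      exact ENNReal.ofReal_le_ofReal hn
    calc ENNReal.ofReal r = ((ENNReal.ofReal r) ^ n) ^ ((n : ℝ)⁻¹) :=
          (ENNReal.pow_rpow_inv_natCast (by omega) _).symm
      _ ≤ (b n : ℝ≥0∞) ^ ((n : ℝ)⁻¹) := ENNReal.rpow_le_rpow e (by positivity)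
  · exact isBounded_le_of_top

/-- the growth of powers -/
theorem pow_small (k : ℕ) (r C : ℝ) (hr : 1 < r) (hC : 0 < C) :
    ∀ᶠ n : ℕ in atTop, C * (n : ℝ) ^ k < r ^ n := by
  have h := (tendsto_pow_const_div_const_pow_of_one_lt k hr).eventually
    (gt_mem_nhds (show (0 : ℝ) < 1 / C by positivity))
  filter_upwards [h] with n hn
  have h1 : 0 < r ^ n := by positivity
  rw [div_lt_div_iff₀ h1 hC] at hn
  linarith

theorem small_cx {b : ℕ → ℕ} (h : ∀ n, b n ≤ (n + 1) * (n + 3)) : cx b ≤ 3 ∧ curv b ≤ 1 := by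
  have h8 : ∀ n : ℕ, 1 ≤ n → (b n : ℝ) ≤ 8 * (n : ℝ) ^ 2 := by
    intro n hn
    have h1 : (b n : ℝ) ≤ ((n : ℝ) + 1) * (n + 3) := by exact_mod_cast h n
    have h2 : (1 : ℝ) ≤ n := by exact_mod_cast hn
    nlinarith
  constructor
  · refine iInf₂_le_of_le (3 : ℝ≥0) ⟨8, by norm_num, ?_⟩ (by norm_num)
    intro n hn
    have e : ((3 : ℝ≥0) : ℝ) - 1 = ((2 : ℕ) : ℝ) := by
      push_cast
      norm_num
    rw [e, Real.rpow_natCast]
    exact h8 n hn
  · apply le_of_forall_gt_imp_ge_of_dense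
    intro r hr
    rcases eq_or_ne r ⊤ with rfl | hrt
    · exact le_top
    have h1 : (1 : ℝ) < r.toReal := by
      rw [← ENNReal.toReal_one]
      exact (ENNReal.toReal_lt_toReal ENNReal.one_ne_top hrt).2 hr
    have h2 := curv_le (b := b) (r := r.toReal) (by linarith) (by
      filter_upwards [pow_small 2 r.toReal 8 h1 (by norm_num), eventually_ge_atTop 1] with n hn h3
      exact (h8 n h3).trans hn.le)
    rwa [ENNReal.ofReal_toReal hrt] at h2

theorem large_cx {b : ℕ → ℕ} (h : ∀ n, 2 ^ n * 3 ≤ 4 * b n) : cx b = ⊤ ∧ 2 ≤ curv b := by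
  have h3 : ∀ n : ℕ, (2 : ℝ) ^ n * 3 ≤ 4 * b n := fun n => by exact_mod_cast h n
  constructor
  · unfold cx
    rw [iInf_eq_top]
    intro d
    rw [iInf_eq_top]
    rintro ⟨c, hc, h4⟩
    exfalso
    obtain ⟨k, hk⟩ := exists_nat_ge ((d : ℝ) - 1)
    obtain ⟨n, hn1, hn2⟩ := ((pow_small k 2 (2 * c) (by norm_num) (by positivity)).and
      (eventually_ge_atTop 1)).exists
    have h5 := h4 n hn2
    have h6 : (n : ℝ) ^ ((d : ℝ) - 1) ≤ (n : ℝ) ^ k := by
      rw [← Real.rpow_natCast]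
      exact Real.rpow_le_rpow_of_exponent_le (by exact_mod_cast hn2) hk
    have h7 := h3 n
    have h8 : c * (n : ℝ) ^ ((d : ℝ) - 1) ≤ c * (n : ℝ) ^ k :=
      mul_le_mul_of_nonneg_left h6 hc.le
    have h9 : (0 : ℝ) < 2 ^ n := by positivity
    nlinarith
  · apply le_of_forall_lt_imp_le_of_dense
    intro r hr
    have hrt : r ≠ ⊤ := ne_top_of_lt hr
    have h1 : r.toReal < 2 := by
      have := (ENNReal.toReal_lt_toReal hrt (by norm_num)).2 hr
      simpa using this
    have h0 : 0 ≤ r.toReal := ENNReal.toReal_nonneg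
    have h2 := le_curv (b := b) (r := r.toReal) h0 (by
      have ht : Tendsto (fun n : ℕ => (r.toReal / 2) ^ n) atTop (𝓝 0) :=
        tendsto_pow_atTop_nhds_zero_of_lt_one (by positivity) (by linarith)
      filter_upwards [ht.eventually (gt_mem_nhds (show (0 : ℝ) < 3 / 4 by norm_num))] with n hn
      rw [div_pow, div_lt_iff₀ (by positivity)] at hn
      linarith [h3 n])
    rwa [ENNReal.ofReal_toReal hrt] at h2

theorem psum_eq (g : ℕ → ℕ) (h0 : g 0 = 3) (h : ∀ n, g (n + 1) = 2) (n : ℕ) :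
    psum (psum g) n = (n + 1) * (n + 3) := by
  have h1 : ∀ n, psum g n = 2 * n + 3 := by
    intro n
    induction n with
    | zero => rw [psum, h0]
    | succ n ih =>
      rw [psum, ih, h]
      ring
  induction n with
  | zero =>
    rw [psum, h1]
  | succ n ih =>
    rw [psum, ih, h1]
    ring

/-- **Complexity and curvature are not invariant under linkage by Gorenstein perfect ideals.** -/
theorem result :
    ∃ (S : Type) (_ : CommRing S) (_ : IsLocalRing S) (_ : IsArtinianRing S) (I J : Ideal S)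
      (b b' : ℕ → ℕ),
      Module.Injective S S ∧ I ≠ ⊤ ∧ J ≠ ⊤ ∧
      (∀ x, x ∈ I ↔ ∀ y ∈ J, x * y = 0) ∧ (∀ x, x ∈ J ↔ ∀ y ∈ I, x * y = 0) ∧
      IsBetti S I b ∧ IsBetti S J b' ∧
      cx b ≤ 3 ∧ cx b' = ⊤ ∧ curv b ≤ 1 ∧ 2 ≤ curv b' := by
  let S := DualNumber (DualNumber Rg)
  have hart : IsArtinianRing S := IsArtinianRing.of_finite ℚ S
  let W : Submodule Rg (Fin 2 → Rg) := LinearMap.range (dd 2)
  -- the functional
  let τ₀ : Rg →ₗ[ℚ] ℚ :=
    { toFun := Rg.s
      map_add' := fun _ _ => rfl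
      map_smul' := fun _ _ => rfl }
  have hτ₀ : Nondeg τ₀ := fun x hx => Rg.nondeg x hx
  have hτ := hτ₀.dual.dual
  have hJ := ann_idl W LL (fun l => mem_LL l)
  have hI : ∀ x, x ∈ idl W ↔ ∀ y ∈ idl LL, x * y = 0 := by
    intro x
    constructor
    · intro hx y hy
      exact (mul_comm x y).trans ((hJ y).1 hy x hx)
    · intro hx
      exact hτ.double (idl W) x fun z hz => hx z ((hJ z).2 hz)
  obtain ⟨b, hb⟩ := exists_betti (A := S) (idl W)
  obtain ⟨b', hb'⟩ := exists_betti (A := S) (idl LL)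
  have h1 : ∀ n, b n ≤ (n + 1) * (n + 3) := by
    intro n
    have hW := prW n 0
    rw [zero_add, pow_one] at hW
    have h2 : PR Rg n _ (idl W) := PR.congr (idlE W).symm (PR.prodFree 1 hW)
    have h3 : PR S n _ (idl W) := PR.dual _ _ _ (PR.dual _ _ _ h2)
    let e : idl W ≃ₗ[S] idl W × (Fin 0 → S) :=
      { toFun := fun x => (x, 0)
        map_add' := fun x y => by simp
        map_smul' := fun c x => by simp
        invFun := fun z => z.1
        left_inv := fun x => rfl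
        right_inv := fun z => Prod.ext rfl (Subsingleton.elim _ _) }
    have h4 := betti_le n _ b 0 (idl W) (idl W) hb e h3 n le_rfl
    rwa [psum_eq _ rfl (fun n => rfl)] at h4
  have h2 : ∀ n, 2 ^ n * 3 ≤ 4 * b' n := by
    intro n
    have h3 : PR S n b' (idl LL) := IsBetti.pr n b' _ hb'
    have h4 : PR Rg n _ (idl LL) := PR.restrict _ _ _ (PR.restrict _ _ _ h3)
    have h5 : 2 ^ n * 3 ≤ (b' n + b' n) + (b' n + b' n) :=
      growLL n _ 1 (idl LL) (idlE LL) h4
    omega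
  obtain ⟨c1, c2⟩ := small_cx h1
  obtain ⟨c3, c4⟩ := large_cx h2
  exact ⟨S, inferInstance, inferInstance, hart, idl W, idl LL, b, b', hτ.baer, idl_ne_top W,
    idl_ne_top LL, hI, hJ, hb, hb', c1, c3, c2, c4⟩

end Pool.Agent.Results.MP_ae0d71_al.NotLinkageInvariant
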